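import Mathlib
import Pool.Agent.H10.Funtf

set_option autoImplicit false

namespace Pool.Agent.Results.MP_580194_an.RealL1

/-- Real `ℓ_1^n` has a finite unit norm tight frame of every length `N ≥ n`. -/
theorem result (n N : ℕ) (hn1 : 1 ≤ n) (hN : n ≤ N) :
    ∃ (x : Fin N → PiLp 1 (fun _ : Fin n => ℝ))
      (f : Fin N → PiLp 1 (fun _ : Fin n => ℝ) →L[ℝ] ℝ),
      (∀ i, ‖x i‖ = 1 ∧ ‖f i‖ = 1 ∧ f i (x i) = 1) ∧
      ∀ y : PiLp 1 (fun _ : Fin n => ℝ), ∑ i, f i y • x i = ((N : ℝ) / (n : ℝ)) • y :=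
  Pool.Agent.H10.Funtf.exists_funtf ℝ _ n N
    (by rw [(WithLp.linearEquiv 1 ℝ (Fin n → ℝ)).finrank_eq]; simp) hn1 hN

end Pool.Agent.Results.MP_580194_an.RealL1
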